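import Pool.Agent.H104.ML.Stm

set_option autoImplicit false

/-!
Project ML of helper104, job EDB.
-/

open Polynomial Finset MeasureTheory

namespace Pool.Agent.Q164.ML

open Pool.Agent.H104.ML

theorem lev_nonempty (m : ℕ) {p : ℕ} (hp : 2 ≤ p) : {i | m < p ^ 2 ^ i}.Nonempty := by
  refine ⟨m, ?_⟩
  have h1 : m < 2 ^ m := Nat.lt_two_pow_self
  have h2 : 2 ^ m < 2 ^ 2 ^ m := Nat.pow_lt_pow_right (by norm_num) h1
  have h3 : 2 ^ 2 ^ m ≤ p ^ 2 ^ m := Nat.pow_le_pow_left hp _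
  exact (h1.trans h2).trans_le h3

theorem lev_spec (m : ℕ) {p : ℕ} (hp : 2 ≤ p) : m < p ^ 2 ^ lev m p :=
  Nat.sInf_mem (lev_nonempty m hp)

theorem lev_anti (m : ℕ) {p q : ℕ} (hp : 2 ≤ p) (h : p ≤ q) : lev m q ≤ lev m p := by
  apply Nat.sInf_le
  exact (lev_spec m hp).trans_le (Nat.pow_le_pow_left h _)

theorem lev_pred (m : ℕ) {p l : ℕ} (hl : 1 ≤ l) (h : lev m p = l) : p ^ 2 ^ (l - 1) ≤ m := by
  by_contra hlt
  push Not at hlt
  have : lev m p ≤ l - 1 := Nat.sInf_le hlt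
  omega

/-- the level of a product -/
theorem lv_mul (m : ℕ) {b p : ℕ} (hb : 1 ≤ b) (hp : p.Prime) :
    lv m (b * p) = max (lv m b) (lev m p) := by
  have hbp : b * p ≠ 1 := by
    intro h
    have := Nat.eq_one_of_mul_eq_one_left h
    exact hp.one_lt.ne' this
  unfold lv
  rw [if_neg hbp]
  by_cases hb1 : b = 1
  · subst hb1
    rw [if_pos rfl, one_mul, hp.minFac_eq]
    simp
  · rw [if_neg hb1]
    have hmp : (b * p).minFac.Prime := Nat.minFac_prime hbp
    have hbm : b.minFac.Prime := Nat.minFac_prime hb1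
    have h1 : (b * p).minFac ≤ p := Nat.minFac_le_of_dvd hp.two_le (Dvd.intro_left b rfl)
    have h2 : (b * p).minFac ≤ b.minFac :=
      Nat.minFac_le_of_dvd hbm.two_le ((Nat.minFac_dvd b).trans (Dvd.intro p rfl))
    rcases (hmp.dvd_mul).1 (Nat.minFac_dvd (b * p)) with h | h
    · have h3 : b.minFac ≤ (b * p).minFac := Nat.minFac_le_of_dvd hmp.two_le h
      have h4 : (b * p).minFac = b.minFac := le_antisymm h2 h3
      rw [h4, max_eq_left]
      exact lev_anti m hbm.two_le (by omega)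
    · have h4 : (b * p).minFac = p := (Nat.prime_dvd_prime_iff_eq hmp hp).1 h
      rw [h4, max_eq_right]
      exact lev_anti m hp.two_le (by omega)

theorem sum_sq (K : ℕ) : ∑ j ∈ range K, ((j : ℝ) + 1) ^ 2 / 2 ^ (j + 1) ≤ 6 := by
  have : ∑ j ∈ range K, ((j : ℝ) + 1) ^ 2 / 2 ^ (j + 1) =
      6 - ((K : ℝ) ^ 2 + 4 * K + 6) / 2 ^ K := by
    induction K with
    | zero => norm_num
    | succ K ih =>
      rw [Finset.sum_range_succ, ih]
      push_cast
      rw [pow_succ]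
      field_simp
      ring
  rw [this]
  have : 0 ≤ ((K : ℝ) ^ 2 + 4 * K + 6) / 2 ^ K := by positivity
  linarith

/-- the weight of a prime -/
noncomputable def wt (J i l : ℕ) : ℝ := if i < l ∧ l < J then (((l : ℝ) - i) / J) ^ 2 else 0

theorem wt_nonneg (J i l : ℕ) : 0 ≤ wt J i l := by
  unfold wt; split_ifs
  · positivity
  · exact le_refl _

/-- the sum over the primes for a fixed level `i` -/
theorem inner {C : ℝ} (hC : 0 ≤ C) (m J i : ℕ) (hm : 2 ≤ m) (hJ : 1 ≤ J)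
    (hB : ∀ i, 1 ≤ i → ∑ p ∈ (Icc 1 m).filter (fun p => p.Prime ∧ p ^ 2 ^ (i - 1) ≤ m ∧
      m < p ^ 2 ^ i), Real.log p / p ≤ Real.log m / 2 ^ i + C) :
    ∑ p ∈ (Icc 1 m).filter (fun p => p.Prime), Real.log p / p * wt J i (lev m p) ≤
      6 * Real.log m / (2 ^ i * (J : ℝ) ^ 2) + C * J := by
  classical
  have hJ' : (0 : ℝ) < J := by exact_mod_cast hJ
  have hlog : 0 ≤ Real.log m := Real.log_natCast_nonneg m
  have e1 : ∀ p : ℕ, wt J i (lev m p) =
      ∑ l ∈ Ico (i + 1) J, if lev m p = l then (((l : ℝ) - i) / J) ^ 2 else 0 := by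
    intro p
    rw [Finset.sum_ite_eq]
    unfold wt
    simp only [Finset.mem_Ico]
    congr 1
  have e2 : ∑ p ∈ (Icc 1 m).filter (fun p => p.Prime), Real.log p / p * wt J i (lev m p) =
      ∑ l ∈ Ico (i + 1) J, (((l : ℝ) - i) / J) ^ 2 *
        ∑ p ∈ ((Icc 1 m).filter (fun p => p.Prime)).filter (fun p => lev m p = l),
          Real.log p / p := by
    simp only [e1, Finset.mul_sum]
    rw [Finset.sum_comm]
    refine Finset.sum_congr rfl fun l _ => ?_
    conv_rhs => rw [Finset.sum_filter]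
    refine Finset.sum_congr rfl fun p _ => ?_
    by_cases h : lev m p = l
    · rw [if_pos h, if_pos h]; ring
    · rw [if_neg h, if_neg h, mul_zero]
  rw [e2]
  have e3 : ∀ l ∈ Ico (i + 1) J,
      ∑ p ∈ ((Icc 1 m).filter (fun p => p.Prime)).filter (fun p => lev m p = l),
          Real.log p / p ≤ Real.log m / 2 ^ l + C := by
    intro l hl
    rw [Finset.mem_Ico] at hl
    refine (Finset.sum_le_sum_of_subset_of_nonneg ?_ ?_).trans (hB l (by omega))
    · intro p hp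
      rw [Finset.mem_filter, Finset.mem_filter] at hp
      rw [Finset.mem_filter]
      refine ⟨hp.1.1, hp.1.2, lev_pred m (by omega) hp.2, ?_⟩
      rw [← hp.2]
      exact lev_spec m hp.1.2.two_le
    · intro p _ _
      exact div_nonneg (Real.log_natCast_nonneg p) (Nat.cast_nonneg p)
  have e4 : ∑ l ∈ Ico (i + 1) J, (((l : ℝ) - i) / J) ^ 2 *
        ∑ p ∈ ((Icc 1 m).filter (fun p => p.Prime)).filter (fun p => lev m p = l),
          Real.log p / p ≤
      ∑ l ∈ Ico (i + 1) J, ((((l : ℝ) - i) / J) ^ 2 * (Real.log m / 2 ^ l) + C) := by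
    refine Finset.sum_le_sum fun l hl => ?_
    have h1 := mul_le_mul_of_nonneg_left (e3 l hl) (sq_nonneg (((l : ℝ) - i) / J))
    refine h1.trans ?_
    rw [mul_add]
    have h2 : (((l : ℝ) - i) / J) ^ 2 ≤ 1 := by
      rw [Finset.mem_Ico] at hl
      have a1 : (i : ℝ) + 1 ≤ l := by exact_mod_cast hl.1
      have a2 : (l : ℝ) ≤ J := by exact_mod_cast hl.2.le
      have a3 : 0 ≤ ((l : ℝ) - i) / J := div_nonneg (by linarith) hJ'.le
      have a4 : ((l : ℝ) - i) / J ≤ 1 := by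
        rw [div_le_one hJ']
        have : (0 : ℝ) ≤ i := Nat.cast_nonneg i
        linarith
      nlinarith
    have h3 := mul_le_mul_of_nonneg_right h2 hC
    linarith
  refine e4.trans ?_
  rw [Finset.sum_add_distrib]
  have e5 : ∑ l ∈ Ico (i + 1) J, (((l : ℝ) - i) / J) ^ 2 * (Real.log m / 2 ^ l) ≤
      6 * Real.log m / (2 ^ i * (J : ℝ) ^ 2) := by
    rw [Finset.sum_Ico_eq_sum_range]
    have e6 : ∀ j : ℕ, ((((i + 1 + j : ℕ) : ℝ) - i) / J) ^ 2 * (Real.log m / 2 ^ (i + 1 + j)) =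
        Real.log m / (2 ^ i * (J : ℝ) ^ 2) * (((j : ℝ) + 1) ^ 2 / 2 ^ (j + 1)) := by
      intro j
      have h1 : (2 : ℝ) ^ (i + 1 + j) = 2 ^ i * 2 ^ (j + 1) := by
        rw [← pow_add]; congr 1; ring
      rw [h1]
      push_cast
      have h2 : ((i : ℝ) + 1 + j - i) = j + 1 := by ring
      rw [h2]
      field_simp
    simp only [e6]
    rw [← Finset.mul_sum]
    have h3 : 0 ≤ Real.log m / (2 ^ i * (J : ℝ) ^ 2) := by positivity
    have h4 := mul_le_mul_of_nonneg_left (sum_sq (J - (i + 1))) h3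
    refine h4.trans (le_of_eq ?_)
    ring
  have e7 : ∑ _l ∈ Ico (i + 1) J, C ≤ C * J := by
    rw [Finset.sum_const, nsmul_eq_mul, Nat.card_Ico, mul_comm]
    apply mul_le_mul_of_nonneg_left _ hC
    exact_mod_cast Nat.sub_le _ _
  linarith

theorem t_EDB (h1 : S_MB) (h2 : S_MC) : S_EDB := by
  classical
  obtain ⟨C, hC, hB⟩ := h1
  obtain ⟨C', hC', hM⟩ := h2
  refine ⟨C' * (6 + C), by positivity, ?_⟩
  intro m J hJ h4
  have hJ' : (0 : ℝ) < J := by exact_mod_cast hJ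
  have hlog : 0 ≤ Real.log m := Real.log_natCast_nonneg m
  have hm : 2 ≤ m := by
    by_contra hlt
    have h5 : Real.log m = 0 := by
      have : m = 0 ∨ m = 1 := by omega
      rcases this with h | h <;> simp [h]
    rw [h5] at h4
    have : (0 : ℝ) < 4 ^ J := by positivity
    linarith
  let P := (Icc 1 m).filter (fun p : ℕ => p.Prime)
  let g : ℕ × ℕ → ℝ := fun y => (y.1.totient : ℝ) / (y.1 : ℝ) ^ 2 *
    (Real.log y.2 / y.2 * wt J (lv m y.1) (lev m y.2))
  have hg0 : ∀ y, 0 ≤ g y := by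
    intro y
    have := wt_nonneg J (lv m y.1) (lev m y.2)
    have : 0 ≤ Real.log (y.2 : ℝ) := Real.log_natCast_nonneg _
    positivity
  have hedge : ∀ x ∈ edges (SS m J), 1 ≤ x.1 ∧ x.2 = x.1 * (x.2 / x.1) ∧ (x.2 / x.1).Prime ∧
      x.2 ≤ m ∧ x.1 ∈ SS m J ∧ lv m x.2 < J := by
    intro x hx
    unfold edges at hx
    rw [Finset.mem_filter, Finset.mem_product] at hx
    obtain ⟨⟨a, b⟩, c, d⟩ := hx
    have a' := a
    unfold SS at a' b
    rw [Finset.mem_filter, Finset.mem_Icc] at a' b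
    exact ⟨a'.1.1, (Nat.mul_div_cancel' c).symm, d, b.1.2, a, b.2.2⟩
  have hterm : ∀ x ∈ edges (SS m J), (x.1.totient : ℝ) * Real.log ((x.2 / x.1 : ℕ) : ℝ) /
      ((x.1 : ℝ) ^ 2 * ((x.2 / x.1 : ℕ) : ℝ)) * (ww m J x.1 - ww m J x.2) ^ 2 =
      g (x.1, x.2 / x.1) := by
    intro x hx
    obtain ⟨a, b, c, d, e, f⟩ := hedge x hx
    set p := x.2 / x.1 with hp
    have hlv : lv m x.2 = max (lv m x.1) (lev m p) := by
      conv_lhs => rw [b]
      exact lv_mul m a c
    have hw : (ww m J x.1 - ww m J x.2) ^ 2 = wt J (lv m x.1) (lev m p) := by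
      unfold ww wt
      by_cases hl : lv m x.1 < lev m p
      · rw [max_eq_right hl.le] at hlv
        rw [if_pos ⟨hl, by omega⟩, hlv]
        ring
      · rw [max_eq_left (by omega)] at hlv
        rw [if_neg (fun h => hl h.1), hlv]
        ring
    rw [hw]
    simp only [g]
    have a0 : (x.1 : ℝ) ≠ 0 := by positivity
    have p0 : (p : ℝ) ≠ 0 := by exact_mod_cast c.pos.ne'
    field_simp
  rw [Finset.sum_congr rfl hterm]
  have hinj : Set.InjOn (fun x : ℕ × ℕ => (x.1, x.2 / x.1)) (edges (SS m J) : Set (ℕ × ℕ)) := by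
    intro x hx y hy hxy
    simp only [Prod.mk.injEq] at hxy
    obtain ⟨-, b, -, -, -, -⟩ := hedge x hx
    obtain ⟨-, b', -, -, -, -⟩ := hedge y hy
    refine Prod.ext hxy.1 ?_
    calc x.2 = x.1 * (x.2 / x.1) := b
      _ = y.1 * (y.2 / y.1) := by rw [hxy.2, hxy.1]
      _ = y.2 := b'.symm
  have e1 : ∑ x ∈ edges (SS m J), g (x.1, x.2 / x.1) =
      ∑ y ∈ (edges (SS m J)).image (fun x : ℕ × ℕ => (x.1, x.2 / x.1)), g y :=
    (Finset.sum_image hinj).symm
  have e2 : ∑ y ∈ (edges (SS m J)).image (fun x : ℕ × ℕ => (x.1, x.2 / x.1)), g y ≤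
      ∑ y ∈ SS m J ×ˢ P, g y := by
    apply Finset.sum_le_sum_of_subset_of_nonneg
    · intro y hy
      rw [Finset.mem_image] at hy
      obtain ⟨x, hx, rfl⟩ := hy
      obtain ⟨a, b, c, d, e, f⟩ := hedge x hx
      rw [Finset.mem_product]
      refine ⟨e, ?_⟩
      simp only [P, Finset.mem_filter, Finset.mem_Icc]
      exact ⟨⟨c.pos, (Nat.div_le_self _ _).trans d⟩, c⟩
    · intro y _ _
      exact hg0 y
  rw [e1]
  refine e2.trans ?_
  rw [Finset.sum_product]
  have e3 : ∀ b ∈ SS m J, ∑ p ∈ P, g (b, p) ≤ (b.totient : ℝ) / (b : ℝ) ^ 2 *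
      (6 * Real.log m / (2 ^ lv m b * (J : ℝ) ^ 2) + C * J) := by
    intro b _
    simp only [g]
    rw [← Finset.mul_sum]
    exact mul_le_mul_of_nonneg_left (inner hC m J (lv m b) hm hJ (fun i hi => hB m i hm hi))
      (by positivity)
  refine (Finset.sum_le_sum e3).trans ?_
  have hmaps : ∀ b ∈ SS m J, lv m b ∈ range J := by
    intro b hb
    unfold SS at hb
    rw [Finset.mem_filter] at hb
    exact Finset.mem_range.2 hb.2.2
  rw [← Finset.sum_fiberwise_of_maps_to hmaps]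
  have e4 : ∀ i ∈ range J, ∑ b ∈ (SS m J).filter (fun b => lv m b = i),
      (b.totient : ℝ) / (b : ℝ) ^ 2 * (6 * Real.log m / (2 ^ lv m b * (J : ℝ) ^ 2) + C * J) ≤
      C' * 2 ^ i * (6 * Real.log m / (2 ^ i * (J : ℝ) ^ 2) + C * J) := by
    intro i hi
    rw [Finset.mem_range] at hi
    have : ∑ b ∈ (SS m J).filter (fun b => lv m b = i),
        (b.totient : ℝ) / (b : ℝ) ^ 2 * (6 * Real.log m / (2 ^ lv m b * (J : ℝ) ^ 2) + C * J) =
        (∑ b ∈ (SS m J).filter (fun b => lv m b = i), (b.totient : ℝ) / (b : ℝ) ^ 2) *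
          (6 * Real.log m / (2 ^ i * (J : ℝ) ^ 2) + C * J) := by
      rw [Finset.sum_mul]
      refine Finset.sum_congr rfl fun b hb => ?_
      rw [Finset.mem_filter] at hb
      rw [hb.2]
    rw [this]
    exact mul_le_mul_of_nonneg_right (hM m J i hJ h4 hi) (by positivity)
  refine (Finset.sum_le_sum e4).trans ?_
  have e5 : ∀ i : ℕ, C' * 2 ^ i * (6 * Real.log m / (2 ^ i * (J : ℝ) ^ 2) + C * J) =
      C' * 6 * (Real.log m / (J : ℝ) ^ 2) + C' * C * J * 2 ^ i := by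
    intro i
    field_simp
  simp only [e5]
  rw [Finset.sum_add_distrib, Finset.sum_const, card_range, nsmul_eq_mul, ← Finset.mul_sum]
  have e6 : ∑ i ∈ range J, (2 : ℝ) ^ i ≤ 2 ^ J := by
    rw [geom_sum_eq (by norm_num)]
    have : (0 : ℝ) < 2 ^ J := by positivity
    have e : ((2 : ℝ) ^ J - 1) / (2 - 1) = 2 ^ J - 1 := by norm_num
    rw [e]; linarith
  have e7 : (J : ℝ) * (C' * 6 * (Real.log m / (J : ℝ) ^ 2)) = C' * 6 * (Real.log m / J) := by
    field_simp
  rw [e7]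
  have e8 : C' * C * J * ∑ i ∈ range J, (2 : ℝ) ^ i ≤ C' * C * J * 2 ^ J :=
    mul_le_mul_of_nonneg_left e6 (by positivity)
  have e9 : 0 ≤ C' * C * (Real.log m / J) := by positivity
  have e10 : 0 ≤ C' * 6 * (2 ^ J * (J : ℝ)) := by positivity
  nlinarith [e8, e9, e10]

end Pool.Agent.Q164.ML
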