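import Pool.Agent.H104.ML.Stm

set_option autoImplicit false

/-!
Project ML of helper104, job ID.
-/

open Polynomial Finset MeasureTheory

namespace Pool.Agent.Q164.ML

open Pool.Agent.H104.ML

theorem tot_eq {c p : ℕ} (hc : Squarefree c) (hp : p.Prime) (hpc : p ∣ c) :
    ((c / p).totient : ℝ) * p = (c.totient : ℝ) + ((c / p).totient : ℝ) := by
  have e : c = c / p * p := (Nat.div_mul_cancel hpc).symm
  have hcop : Nat.Coprime (c / p) p := by
    rw [e] at hc
    exact (Nat.squarefree_mul_iff.1 hc).1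
  have h1 : c.totient = (c / p).totient * (p - 1) := by
    conv_lhs => rw [e]
    rw [Nat.totient_mul hcop, Nat.totient_prime hp]
  rw [h1]
  have h2 : 1 ≤ p := hp.one_le
  push_cast [Nat.cast_sub h2]
  ring

theorem log_eq {c : ℕ} (hc : Squarefree c) :
    ∑ p ∈ c.primeFactors, Real.log (p : ℝ) = Real.log c := by
  conv_rhs => rw [← Nat.prod_primeFactors_of_squarefree hc]
  rw [Nat.cast_prod, Real.log_prod]
  intro p hp
  exact_mod_cast (Nat.prime_of_mem_primeFactors hp).pos.ne'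

theorem mem_edges {S : Finset ℕ} {x : ℕ × ℕ} (hx : x ∈ edges S) :
    x.1 ∈ S ∧ x.2 ∈ S ∧ x.2 = x.1 * (x.2 / x.1) ∧ (x.2 / x.1).Prime := by
  unfold edges at hx
  rw [Finset.mem_filter, Finset.mem_product] at hx
  obtain ⟨⟨a, b⟩, c, d⟩ := hx
  exact ⟨a, b, (Nat.mul_div_cancel' c).symm, d⟩

theorem t_ID : S_ID := by
  classical
  intro S μ n hS hcl
  have hpos : ∀ b ∈ S, 0 < b := fun b hb => Nat.pos_of_ne_zero (hS b hb).ne_zero
  -- the three parts of the terms
  have hterm : ∀ x ∈ edges S, (x.1.totient : ℝ) * Real.log ((x.2 / x.1 : ℕ) : ℝ) /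
      ((x.1 : ℝ) ^ 2 * ((x.2 / x.1 : ℕ) : ℝ)) * ((x.1 * μ x.1 : ℝ) - (x.2 * μ x.2 : ℝ)) ^ 2 =
      (x.1.totient : ℝ) * (μ x.1 : ℝ) ^ 2 *
        (Real.log ((x.2 / x.1 : ℕ) : ℝ) / ((x.2 / x.1 : ℕ) : ℝ)) -
      2 * ((μ x.1 : ℝ) * (μ x.2 : ℝ) * (x.1.totient : ℝ) * Real.log ((x.2 / x.1 : ℕ) : ℝ)) +
      (μ x.2 : ℝ) ^ 2 * ((x.1.totient : ℝ) * ((x.2 / x.1 : ℕ) : ℝ) *
        Real.log ((x.2 / x.1 : ℕ) : ℝ)) := by
    intro x hx
    obtain ⟨a, b, c, d⟩ := mem_edges hx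
    set p := x.2 / x.1 with hp
    have a0 : (x.1 : ℝ) ≠ 0 := by exact_mod_cast (hpos _ a).ne'
    have p0 : (p : ℝ) ≠ 0 := by exact_mod_cast d.pos.ne'
    have hx2 : (x.2 : ℝ) = x.1 * p := by exact_mod_cast c
    rw [hx2]
    field_simp
    ring
  rw [Finset.sum_congr rfl hterm]
  rw [Finset.sum_add_distrib, Finset.sum_sub_distrib]
  -- first part
  have h1 : ∑ x ∈ edges S, (x.1.totient : ℝ) * (μ x.1 : ℝ) ^ 2 *
        (Real.log ((x.2 / x.1 : ℕ) : ℝ) / ((x.2 / x.1 : ℕ) : ℝ)) =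
      ∑ b ∈ S, (b.totient : ℝ) * (μ b : ℝ) ^ 2 *
        ∑ x ∈ (edges S).filter (fun x => x.1 = b),
          Real.log ((x.2 / x.1 : ℕ) : ℝ) / ((x.2 / x.1 : ℕ) : ℝ) := by
    rw [← Finset.sum_fiberwise_of_maps_to (g := fun x : ℕ × ℕ => x.1)
      (fun x hx => (mem_edges hx).1)]
    refine Finset.sum_congr rfl fun b _ => ?_
    rw [Finset.mul_sum]
    refine Finset.sum_congr rfl fun x hx => ?_
    rw [Finset.mem_filter] at hx
    rw [hx.2]
  -- third part
  have h3 : ∑ x ∈ edges S, (μ x.2 : ℝ) ^ 2 * ((x.1.totient : ℝ) * ((x.2 / x.1 : ℕ) : ℝ) *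
        Real.log ((x.2 / x.1 : ℕ) : ℝ)) =
      ∑ c ∈ S, (μ c : ℝ) ^ 2 * ((c.totient : ℝ) * Real.log c +
        ∑ p ∈ c.primeFactors, ((c / p).totient : ℝ) * Real.log p) := by
    rw [← Finset.sum_fiberwise_of_maps_to (g := fun x : ℕ × ℕ => x.2)
      (fun x hx => (mem_edges hx).2.1)]
    refine Finset.sum_congr rfl fun c hc => ?_
    have hsq := hS c hc
    have e1 : ∑ x ∈ (edges S).filter (fun x => x.2 = c),
        (μ x.2 : ℝ) ^ 2 * ((x.1.totient : ℝ) * ((x.2 / x.1 : ℕ) : ℝ) *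
          Real.log ((x.2 / x.1 : ℕ) : ℝ)) =
        ∑ p ∈ c.primeFactors, (μ c : ℝ) ^ 2 * (((c / p).totient : ℝ) * (p : ℝ) *
          Real.log (p : ℝ)) := by
      refine Finset.sum_nbij' (fun x => x.2 / x.1) (fun p => (c / p, c)) ?_ ?_ ?_ ?_ ?_
      · intro x hx
        rw [Finset.mem_filter] at hx
        obtain ⟨a, b, e, d⟩ := mem_edges hx.1
        rw [hx.2] at e d
        simp only [hx.2]
        rw [Nat.mem_primeFactors]
        exact ⟨d, Dvd.intro_left _ e.symm, (hpos c hc).ne'⟩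
      · intro p hp
        have hpp := Nat.prime_of_mem_primeFactors hp
        have hpd := Nat.dvd_of_mem_primeFactors hp
        have hcp := hcl c hc p hp
        rw [Finset.mem_filter]
        refine ⟨?_, rfl⟩
        unfold edges
        rw [Finset.mem_filter, Finset.mem_product]
        have hdd : c / (c / p) = p := Nat.div_div_self hpd (hpos c hc).ne'
        refine ⟨⟨hcp, hc⟩, Nat.div_dvd_of_dvd hpd, ?_⟩
        change (c / (c / p)).Prime
        rw [hdd]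
        exact hpp
      · intro x hx
        rw [Finset.mem_filter] at hx
        obtain ⟨a, b, e, d⟩ := mem_edges hx.1
        have hdv : x.1 ∣ x.2 := Dvd.intro _ e.symm
        refine Prod.ext ?_ ?_
        · simp only
          rw [← hx.2]
          exact Nat.div_div_self hdv (hpos _ b).ne'
        · exact hx.2.symm
      · intro p hp
        have hpd := Nat.dvd_of_mem_primeFactors hp
        exact Nat.div_div_self hpd (hpos c hc).ne'
      · intro x hx
        rw [Finset.mem_filter] at hx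
        obtain ⟨a, b, e, d⟩ := mem_edges hx.1
        have hdv : x.1 ∣ x.2 := Dvd.intro _ e.symm
        have h5 : c / (x.2 / x.1) = x.1 := by
          rw [← hx.2]; exact Nat.div_div_self hdv (hpos _ b).ne'
        rw [h5, hx.2]
    rw [e1, ← Finset.mul_sum]
    congr 1
    rw [← log_eq hsq, Finset.mul_sum, ← Finset.sum_add_distrib]
    refine Finset.sum_congr rfl fun p hp => ?_
    rw [tot_eq hsq (Nat.prime_of_mem_primeFactors hp) (Nat.dvd_of_mem_primeFactors hp)]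
    ring
  rw [h1, h3]
  unfold EEd
  rw [← Finset.mul_sum]
  have h2 : ∀ b ∈ S, (b.totient : ℝ) * (μ b : ℝ) ^ 2 * (Real.log n - Real.log (μ b) + 5 -
      2 * Real.log b - ∑ x ∈ (edges S).filter (fun x => x.1 = b),
        Real.log ((x.2 / x.1 : ℕ) : ℝ) / ((x.2 / x.1 : ℕ) : ℝ)) =
      (b.totient : ℝ) * (μ b : ℝ) ^ 2 * (Real.log n - Real.log (μ b) + 5) -
      (μ b : ℝ) ^ 2 * ((b.totient : ℝ) * Real.log b -
        ∑ p ∈ b.primeFactors, ((b / p).totient : ℝ) * Real.log p) -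
      (μ b : ℝ) ^ 2 * ((b.totient : ℝ) * Real.log b +
        ∑ p ∈ b.primeFactors, ((b / p).totient : ℝ) * Real.log p) -
      (b.totient : ℝ) * (μ b : ℝ) ^ 2 * ∑ x ∈ (edges S).filter (fun x => x.1 = b),
        Real.log ((x.2 / x.1 : ℕ) : ℝ) / ((x.2 / x.1 : ℕ) : ℝ) := by
    intro b _
    ring
  rw [Finset.sum_congr rfl h2]
  simp only [Finset.sum_sub_distrib]
  ring

end Pool.Agent.Q164.ML
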