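import Pool.Agent.H104.ML.Stm

set_option autoImplicit false

/-!
Project ML of helper104, job SEC.
-/

open MeasureTheory

namespace Pool.Agent.Q164.ML

open Pool.Agent.H104.ML

/-- Lebesgue measure on `[-1, 1]` -/
noncomputable def mI : Measure ℝ := (volume : Measure ℝ).restrict (Set.Icc (-1) 1)

instance : IsFiniteMeasure mI := by unfold mI; infer_instance

theorem mI_int {f : ℝ → ℝ} : ∫ x, f x ∂mI = ∫ x in (-1)..1, f x := by
  unfold mI
  rw [integral_Icc_eq_integral_Ioc, intervalIntegral.integral_of_le (by norm_num)]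

theorem mI_one : ∫ _x, (1 : ℝ) ∂mI = 2 := by
  rw [mI_int]; simp; norm_num

theorem mI_id : ∫ x, x ∂mI = 0 := by
  rw [mI_int]; simp

theorem mI_sq : ∫ x, x * x ∂mI = 2 / 3 := by
  rw [mI_int]
  have : ∀ x : ℝ, x * x = x ^ 2 := fun x => (sq x).symm
  simp only [this, integral_pow]
  norm_num

theorem mI_univ : mI Set.univ = 2 := by
  unfold mI
  rw [Measure.restrict_apply_univ, Real.volume_Icc]
  norm_num

theorem mI_integrable {f : ℝ → ℝ} (hf : Continuous f) : Integrable f mI := by
  unfold mI
  exact hf.integrableOn_Icc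

section
variable {D : ℕ}

/-- the factors -/
noncomputable def ff (s s' : Fin D) (i : Fin D) (x : ℝ) : ℝ :=
  (if i = s then x else 1) * (if i = s' then x else 1)

theorem ff_prod (s s' : Fin D) (c : Fin D → ℝ) : ∏ i, ff s s' i (c i) = c s * c s' := by
  unfold ff
  rw [Finset.prod_mul_distrib, Finset.prod_ite_eq', Finset.prod_ite_eq']
  simp

theorem ff_cont (s s' i : Fin D) : Continuous (ff s s' i) := by
  unfold ff
  split_ifs <;> fun_prop

theorem int_ne {s s' : Fin D} (h : s ≠ s') : ∫ c, c s * c s' ∂(Measure.pi fun _ : Fin D => mI) = 0 := by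
  simp only [← ff_prod s s']
  rw [integral_fintype_prod_eq_prod (f := ff s s')]
  apply Finset.prod_eq_zero (Finset.mem_univ s)
  unfold ff
  simp only [if_true, if_neg h, mul_one]
  exact mI_id

theorem int_eq (s : Fin D) : ∫ c, c s * c s ∂(Measure.pi fun _ : Fin D => mI) = 2 ^ D / 3 := by
  simp only [← ff_prod s s]
  rw [integral_fintype_prod_eq_prod (f := ff s s)]
  have : ∀ i : Fin D, ∫ x, ff s s i x ∂mI = 2 * (if i = s then 1 / 3 else 1) := by
    intro i
    unfold ff
    by_cases h : i = s
    · simp only [h, if_true]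
      rw [mI_sq]; norm_num
    · simp only [h, if_false, mul_one]
      exact mI_one
  simp only [this]
  rw [Finset.prod_mul_distrib, Finset.prod_const, Finset.prod_ite_eq']
  simp
  ring

theorem integrable_mul (s s' : Fin D) :
    Integrable (fun c : Fin D → ℝ => c s * c s') (Measure.pi fun _ : Fin D => mI) := by
  simp only [← ff_prod s s']
  exact Integrable.fintype_prod fun i => mI_integrable (ff_cont s s' i)

end

theorem t_SEC : S_SEC := by
  classical
  intro D n H hH
  rcases Nat.eq_zero_or_pos D with hD | hD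
  · subst hD
    have : {c : Fin 0 → ℝ | (∀ s, |c s| ≤ 1) ∧ ∑ j, (∑ s, c s * H s j) ^ 2 ≤ ((0 : ℕ) : ℝ)} =
        Set.univ := by
      ext c
      simp
    rw [this, volume_pi, Measure.pi_univ]
    simp
  · have hD' : (0 : ℝ) < D := by exact_mod_cast hD
    let ν : Measure (Fin D → ℝ) := Measure.pi fun _ => mI
    have hν : ν = (volume : Measure (Fin D → ℝ)).restrict
        (Set.univ.pi fun _ => Set.Icc (-1) 1) := by
      rw [volume_pi, Measure.restrict_pi_pi]
      rfl
    let F : (Fin D → ℝ) → ℝ := fun c => ∑ j, (∑ s, c s * H s j) ^ 2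
    have hFc : Continuous F := by
      simp only [F]
      fun_prop
    have hF : ∀ c, F c = ∑ j, ∑ s, ∑ s', (H s j * H s' j) * (c s * c s') := by
      intro c
      simp only [F]
      refine Finset.sum_congr rfl fun j _ => ?_
      rw [sq, Finset.sum_mul_sum]
      refine Finset.sum_congr rfl fun s _ => Finset.sum_congr rfl fun s' _ => ?_
      ring
    have hFi : Integrable F ν := by
      have : F = fun c => ∑ j, ∑ s, ∑ s', (H s j * H s' j) * (c s * c s') := funext hF
      rw [this]
      exact integrable_finsetSum _ fun j _ => integrable_finsetSum _ fun s _ =>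
        integrable_finsetSum _ fun s' _ => (integrable_mul s s').const_mul _
    have hI : ∫ c, F c ∂ν = (∑ j, ∑ s, H s j ^ 2) * (2 ^ D / 3) := by
      simp only [hF]
      rw [integral_finsetSum _ fun j _ => integrable_finsetSum _ fun s _ =>
        integrable_finsetSum _ fun s' _ => (integrable_mul s s').const_mul _, Finset.sum_mul]
      refine Finset.sum_congr rfl fun j _ => ?_
      rw [integral_finsetSum _ fun s _ =>
        integrable_finsetSum _ fun s' _ => (integrable_mul s s').const_mul _, Finset.sum_mul]
      refine Finset.sum_congr rfl fun s _ => ?_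
      rw [integral_finsetSum _ fun s' _ => (integrable_mul s s').const_mul _]
      rw [Finset.sum_eq_single s]
      · rw [integral_const_mul, int_eq, sq]
      · intro s' _ hs'
        rw [integral_const_mul, int_ne hs'.symm, mul_zero]
      · intro h
        exact absurd (Finset.mem_univ s) h
    have hM := mul_meas_ge_le_integral_of_nonneg (μ := ν) (f := F)
      (Filter.Eventually.of_forall fun c => Finset.sum_nonneg fun j _ => sq_nonneg _) hFi D
    rw [hI] at hM
    have hM2 : ν.real {c | (D : ℝ) ≤ F c} ≤ 2 ^ D / 3 := by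
      have h1 : (D : ℝ) * ν.real {c | (D : ℝ) ≤ F c} ≤ D * (2 ^ D / 3) :=
        hM.trans (mul_le_mul_of_nonneg_right hH (by positivity))
      exact le_of_mul_le_mul_left h1 hD'
    have huniv : ν.real Set.univ = 2 ^ D := by
      unfold Measure.real
      rw [Measure.pi_univ]
      simp [mI_univ]
    let A : Set (Fin D → ℝ) := {c | F c ≤ D}
    have hA : MeasurableSet A := (isClosed_le hFc continuous_const).measurableSet
    have hAc : ν.real A + ν.real Aᶜ = 2 ^ D := by
      rw [measureReal_add_measureReal_compl hA, huniv]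
    have hAs : ν.real Aᶜ ≤ ν.real {c | (D : ℝ) ≤ F c} := by
      refine measureReal_mono ?_ (measure_ne_top _ _)
      intro c hc
      have : ¬ F c ≤ D := hc
      exact (not_le.1 this).le
    have h2D : (2 : ℝ) ≤ 2 ^ D := by
      calc (2 : ℝ) = 2 ^ 1 := by norm_num
        _ ≤ 2 ^ D := pow_le_pow_right₀ (by norm_num) hD
    have hA1 : 1 ≤ ν.real A := by linarith
    have hA2 : 1 ≤ ν A := by
      have h1 := ENNReal.ofReal_le_ofReal hA1
      rw [ENNReal.ofReal_one, ofReal_measureReal] at h1
      exact h1
    rw [hν, Measure.restrict_apply hA] at hA2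
    refine hA2.trans (measure_mono ?_)
    rintro c ⟨hc1, hc2⟩
    refine ⟨fun s => ?_, hc1⟩
    have := hc2 s (Set.mem_univ s)
    exact abs_le.2 this

end Pool.Agent.Q164.ML
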